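import Pool.Agent.Helper840.BallCube

set_option autoImplicit false

namespace Pool.Agent.Results.MP_b30d95_gt.BallAndCube

/-- A convex polytope: the convex hull of finitely many points of `ℝ^d`. -/
def IsPolytope {d : ℕ} (P : Set (EuclideanSpace ℝ (Fin d))) : Prop :=
  ∃ V : Finset (EuclideanSpace ℝ (Fin d)),
    P = convexHull ℝ (V : Set (EuclideanSpace ℝ (Fin d)))

/-- `F` is a facet of `P`: it is the nonempty intersection of `P` with a supporting hyperplane
`{x | ⟪u, x⟫ = h}` of `P`, and it has dimension `d - 1`. -/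
def IsFacet {d : ℕ} (P F : Set (EuclideanSpace ℝ (Fin d))) : Prop :=
  ∃ (u : EuclideanSpace ℝ (Fin d)) (h : ℝ), u ≠ 0 ∧ (∀ x ∈ P, inner ℝ u x ≤ h) ∧
    F = {x | x ∈ P ∧ inner ℝ u x = h} ∧ F.Nonempty ∧
    Module.finrank ℝ (vectorSpan ℝ F) + 1 = d

/-- `σ(P)`: the largest distance from a point of `P` to the origin. -/
noncomputable def sigma {d : ℕ} (P : Set (EuclideanSpace ℝ (Fin d))) : ℝ :=
  sSup ((fun x => ‖x‖) '' P)

/-- The cube `{x | |x_i| ≤ 1 for all i}`. -/
def cube (d : ℕ) : Set (EuclideanSpace ℝ (Fin d)) := {x | ∀ i, |x i| ≤ 1}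

/-- The ball-and-cube problem in every dimension: a convex polytope `P ⊆ ℝ^d` with exactly `2d`
facets that contains the unit ball has `σ(P) ≥ √d` (the maximum is attained), with equality
if and only if `P` is congruent to the cube `[-1,1]^d`. -/
theorem result (d : ℕ) (hd : 1 ≤ d) (P : Set (EuclideanSpace ℝ (Fin d)))
    (hP : IsPolytope P) (hF : {F | IsFacet P F}.ncard = 2 * d)
    (hB : Metric.closedBall (0 : EuclideanSpace ℝ (Fin d)) 1 ⊆ P) :
    IsGreatest ((fun x => ‖x‖) '' P) (sigma P) ∧
    Real.sqrt d ≤ sigma P ∧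
    (sigma P = Real.sqrt d ↔
      ∃ g : EuclideanSpace ℝ (Fin d) ≃ᵢ EuclideanSpace ℝ (Fin d), P = g '' cube d) := by
  classical
  obtain ⟨V, hV⟩ := hP
  have hcomp : IsCompact P := by
    rw [hV]; exact Set.Finite.isCompact_convexHull (𝕜 := ℝ) V.finite_toSet
  have hclosed : IsClosed P := hcomp.isClosed
  have hconv : Convex ℝ P := by rw [hV]; exact convex_convexHull ℝ _
  have h0P : (0 : EuclideanSpace ℝ (Fin d)) ∈ P := hB (by simp)
  have hgr : IsGreatest ((fun x => ‖x‖) '' P) (sigma P) :=
    (hcomp.image continuous_norm).isGreatest_sSup (Set.Nonempty.image _ ⟨0, h0P⟩)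
  have hb : ∀ x ∈ P, ‖x‖ ≤ sigma P := fun x hx => hgr.2 ⟨x, hx, rfl⟩
  let i0 : Fin d := ⟨0, by omega⟩
  have hσ1 : 1 ≤ sigma P := by
    have h1 := hb (EuclideanSpace.single i0 1) (hB (by simp))
    simpa using h1
  have hσ0 : 0 < sigma P := by linarith
  -- extreme points of the polar
  set X := (Helper840.BC.Q P).extremePoints ℝ with hX
  have hmaps : ∀ y ∈ X, Helper840.BC.face P y ∈ {F | IsFacet P F} := by
    intro y hy
    rw [hX, hV] at hy
    obtain ⟨v, hv, hv1⟩ := Helper840.BC.face_nonempty hd hy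
    refine ⟨y, 1, Helper840.BC.ext_ne_zero hd hy, ?_, rfl, ?_, ?_⟩
    · intro x hx
      rw [real_inner_comm]
      rw [hV] at hx
      exact hy.1 x hx
    · rw [hV]
      exact ⟨v, Helper840.BC.tight_subset_face ⟨hv, hv1⟩⟩
    · rw [hV]
      exact Helper840.BC.face_finrank hd hy
  have hinj : Set.InjOn (Helper840.BC.face P) X := by
    intro y hy z _ h
    rw [hX, hV] at hy
    rw [hV] at h
    exact Helper840.BC.face_inj hy h
  have hXne0 : ∀ y ∈ X, y ≠ 0 := by
    intro y hy
    rw [hX, hV] at hy
    exact Helper840.BC.ext_ne_zero hd hy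
  have hFfin : {F | IsFacet P F}.Finite := Set.finite_of_ncard_ne_zero (by rw [hF]; omega)
  have hXfin : X.Finite := Set.Finite.of_finite_image
    (hFfin.subset (by rintro _ ⟨y, hy, rfl⟩; exact hmaps y hy)) hinj
  have hXcard : X.ncard ≤ 2 * d := by
    rw [← hF]
    exact Set.ncard_le_ncard_of_injOn _ hmaps hinj hFfin
  have hXne : X.Nonempty := by
    by_contra hne
    rw [Set.not_nonempty_iff_eq_empty] at hne
    have h1 : EuclideanSpace.single i0 (sigma P + 1) ∈ P := by
      apply Helper840.BC.bipolar hclosed hconv hB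
      intro y hy
      rw [← hX, hne] at hy
      exact hy.elim
    have h2 := hb _ h1
    rw [PiLp.norm_single, Real.norm_of_nonneg (by linarith)] at h2
    linarith
  have : Fintype X := hXfin.fintype
  have : Nonempty X := hXne.to_subtype
  obtain ⟨g⟩ : Nonempty (X ↪ Fin (d + d)) := by
    apply Function.Embedding.nonempty_of_card_le
    rw [Fintype.card_fin, ← Set.toFinset_card, ← Set.ncard_eq_toFinset_card']
    omega
  set f : Fin (d + d) → X := Function.invFun g with hf
  have hfs : Function.Surjective f := Function.invFun_surjective g.injective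
  have hy0 : ∀ i, (f i : EuclideanSpace ℝ (Fin d)) ≠ 0 := by
    intro i
    exact hXne0 _ (f i).2
  have hy1 : ∀ i, ‖(f i : EuclideanSpace ℝ (Fin d))‖ ≤ 1 := fun i =>
    Helper840.BC.Q_norm hB (f i).2.1
  have hPiff : ∀ x, x ∈ P ↔ ∀ i, inner ℝ x (f i : EuclideanSpace ℝ (Fin d)) ≤ 1 := by
    intro x
    constructor
    · intro hx i
      exact (f i).2.1 x hx
    · intro h
      apply Helper840.BC.bipolar hclosed hconv hB
      intro y hy
      obtain ⟨i, hi⟩ := hfs ⟨y, hy⟩
      have h1 := h i
      rw [hi] at h1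
      exact h1
  refine ⟨hgr, Helper840.BC.lower hd _ hy0 hy1 (fun x hx => (hPiff x).mpr hx) hσ0 hb, ?_, ?_⟩
  · intro heq
    obtain ⟨b, hbP⟩ := Helper840.BC.rigid hd _ hy0 hy1 hPiff (by rw [← heq]; exact hb)
    refine ⟨b.repr.symm.toIsometryEquiv, ?_⟩
    ext x
    rw [hbP]
    constructor
    · intro h
      refine ⟨b.repr x, ?_, ?_⟩
      · intro i
        rw [OrthonormalBasis.repr_apply_apply]
        exact h i
      · simp
    · rintro ⟨a, ha, rfl⟩ i
      have h1 : inner ℝ (b i) (b.repr.symm.toIsometryEquiv a) = a i := by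
        rw [← OrthonormalBasis.repr_apply_apply]
        simp
      rw [h1]
      exact ha i
  · rintro ⟨g, hg⟩
    set L := g.toRealLinearIsometryEquiv with hL
    have hLg : ∀ x, g x = L x + g 0 := by
      intro x
      rw [hL, IsometryEquiv.toRealLinearIsometryEquiv_apply]
      abel
    have hw : ∀ i, (L.symm (g 0)) i = 0 := by
      intro i
      have hu : ∀ s : ℝ, |s| = 1 → ∃ a ∈ cube d, a i + (L.symm (g 0)) i = s := by
        intro s hs
        have h1 : L (EuclideanSpace.single i s) ∈ P := by
          apply hB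
          rw [mem_closedBall_zero_iff, LinearIsometryEquiv.norm_map, PiLp.norm_single,
            Real.norm_eq_abs, hs]
        rw [hg] at h1
        obtain ⟨a, ha, ha2⟩ := h1
        refine ⟨a, ha, ?_⟩
        rw [hLg] at ha2
        have h2 : a + L.symm (g 0) = EuclideanSpace.single i s := by
          apply L.injective
          rw [map_add, L.apply_symm_apply, ha2]
        have h3 := congrArg (fun v : EuclideanSpace ℝ (Fin d) => v i) h2
        simpa using h3
      obtain ⟨a, ha, ha1⟩ := hu 1 (by simp)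
      obtain ⟨c, hc, hc1⟩ := hu (-1) (by simp)
      have h1 := (abs_le.mp (ha i)).2
      have h2 := (abs_le.mp (hc i)).1
      linarith
    have hg0 : g 0 = 0 := by
      have h1 : L.symm (g 0) = 0 := by
        ext i
        simpa using hw i
      have h2 : L (L.symm (g 0)) = L 0 := by rw [h1]
      rw [L.apply_symm_apply, L.map_zero] at h2
      exact h2
    have hgn : ∀ x, ‖g x‖ = ‖x‖ := by
      intro x
      rw [hLg, hg0, add_zero, LinearIsometryEquiv.norm_map]
    have hgr2 : IsGreatest ((fun x => ‖x‖) '' P) (Real.sqrt d) := by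
      constructor
      · refine ⟨g (WithLp.toLp 2 fun _ => 1), ?_, ?_⟩
        · rw [hg]
          exact ⟨_, fun i => by simp, rfl⟩
        · simp only
          rw [hgn, EuclideanSpace.norm_eq]
          simp
      · rintro _ ⟨x, hx, rfl⟩
        rw [hg] at hx
        obtain ⟨a, ha, rfl⟩ := hx
        simp only
        rw [hgn, EuclideanSpace.norm_eq]
        apply Real.sqrt_le_sqrt
        calc ∑ i, ‖a i‖ ^ 2 ≤ ∑ i : Fin d, (1:ℝ) := by
              apply Finset.sum_le_sum
              intro i _
              have h1 := ha i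
              rw [Real.norm_eq_abs]
              have h2 := abs_nonneg (a i)
              nlinarith
          _ = d := by simp
    exact hgr.unique hgr2

end Pool.Agent.Results.MP_b30d95_gt.BallAndCube
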